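import Pool.Agent.Helper46.RO.Base

/-!
# Project RO, packet E7: a lag gives the pushing property
-/

set_option autoImplicit false

namespace Pool.Agent.Helper9.RO

open Pool.Agent.Helper46.RO

universe u

theorem exists_letter {L : Type u} [Group L] {X : Finset L} {χ : L → ℝ} (hX : SymGen X)
    (hχ : IsChar χ) (h : ∃ g, χ g ≠ 0) : ∃ x₀ ∈ X, 0 < χ x₀ := by
  by_contra hcon
  push Not at hcon
  have h0 : ∀ x ∈ X, χ x = 0 := by
    intro x hx
    have h1 := hcon x hx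
    have h2 := hcon x⁻¹ (hX.1 x hx)
    rw [hχ.inv] at h2
    linarith
  obtain ⟨g, hg⟩ := h
  apply hg
  have hmem : g ∈ Subgroup.closure (X : Set L) := by rw [hX.2]; exact Subgroup.mem_top _
  induction hmem using Subgroup.closure_induction with
  | mem x hx => exact h0 x hx
  | one => exact hχ.one
  | mul a b _ _ ha hb =>
    by_cases ha0 : χ a = 0
    · by_cases hb0 : χ b = 0
      · rw [hχ, ha0, hb0, add_zero]
      · exact absurd (hb hb0) hb0
    · exact absurd (ha ha0) ha0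
  | inv a _ ha =>
    by_cases ha0 : χ a = 0
    · rw [hχ.inv, ha0, neg_zero]
    · exact absurd (ha ha0) ha0

theorem E7 : GoalE7.{u} := by
  intro L _ X χ hX hχ hne hlag
  obtain ⟨x₀, hx₀, hpos⟩ := exists_letter hX hχ hne
  obtain ⟨c, hc⟩ := hlag
  have hM0 : 0 ≤ ∑ x ∈ X, |χ x| := Finset.sum_nonneg fun x _ => abs_nonneg _
  have hM : ∀ x ∈ X, |χ x| ≤ ∑ x ∈ X, |χ x| := fun x hx =>
    Finset.single_le_sum (f := fun x => |χ x|) (fun y _ => abs_nonneg _) hx
  generalize (∑ x ∈ X, |χ x|) = M at hM0 hM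
  obtain ⟨m, hm⟩ := exists_nat_gt ((2 * M + c) / χ x₀)
  rw [div_lt_iff₀ hpos] at hm
  refine ⟨x₀, hx₀, hpos, m, ?_⟩
  intro x hx
  have hxM := abs_le.1 (hM x hx)
  have h1 : x₀ ^ m ∈ up χ (m * χ x₀ - M) := by
    change m * χ x₀ - M ≤ χ (x₀ ^ m)
    rw [hχ.pow]
    linarith
  have h2 : x * x₀ ^ m ∈ up χ (m * χ x₀ - M) := by
    change m * χ x₀ - M ≤ χ (x * x₀ ^ m)
    rw [hχ, hχ.pow]
    linarith [hxM.1]
  refine (hc (m * χ x₀ - M) _ h1 _ h2).mono ?_
  intro h hh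
  have hh' : m * χ x₀ - M - c ≤ χ h := hh
  have h3 : max 0 (χ x) ≤ M := max_le hM0 hxM.2
  change max 0 (χ x) < χ h
  linarith

end Pool.Agent.Helper9.RO
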